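import Mathlib

/-!
# Project GL (MP_7bfbd3_co): limits of sets along an ultrafilter

If a nonnegative kernel `U` has sets `T` of measure at least `c` inside `S` with arbitrarily small
integral over `T × T`, then it vanishes almost everywhere on some such `T × T`.
-/

set_option autoImplicit false

namespace Pool.Agent.Helper42.GL

open MeasureTheory Set Filter Topology ENNReal

section
variable {Ω : Type*} [MeasurableSpace Ω]

/-- The real measure of a disjoint union is the sum of a series. -/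
theorem hasSum_real (m : Measure Ω) [IsFiniteMeasure m] {f : ℕ → Set Ω}
    (hf : ∀ i, MeasurableSet (f i)) (hd : Pairwise (Function.onFun Disjoint f)) :
    HasSum (fun k => m.real (f k)) (m.real (⋃ k, f k)) := by
  have h1 : m (⋃ k, f k) = ∑' k, m (f k) := measure_iUnion hd hf
  have h2 : ∑' k, m (f k) ≠ ∞ := by rw [← h1]; exact measure_ne_top _ _
  have h3 : Summable (fun k => (m (f k)).toReal) := ENNReal.summable_toReal h2
  have h4 : m.real (⋃ k, f k) = ∑' k, m.real (f k) := by
    simp only [measureReal_def]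
    rw [h1, ENNReal.tsum_toReal_eq fun k => measure_ne_top _ _]
  rw [h4]
  exact h3.hasSum

/-- Limits along `𝒰` of measures below a fixed finite measure are additive. -/
theorem tendsto_iUnion {𝒰 : Filter ℕ} {m : ℕ → Measure Ω} {M ν : Measure Ω}
    [IsFiniteMeasure M] [∀ i, IsFiniteMeasure (m i)] [IsFiniteMeasure ν] (hm : ∀ i, m i ≤ M)
    {f : ℕ → Set Ω} (hf : ∀ i, MeasurableSet (f i)) (hd : Pairwise (Function.onFun Disjoint f))
    (h : ∀ k, Tendsto (fun i => (m i).real (f k)) 𝒰 (𝓝 (ν.real (f k)))) :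
    Tendsto (fun i => (m i).real (⋃ k, f k)) 𝒰 (𝓝 (ν.real (⋃ k, f k))) := by
  have h1 := tendsto_tsum_of_dominated_convergence (𝓕 := 𝒰)
    (f := fun i k => (m i).real (f k)) (hasSum_real M hf hd).summable h
    (Eventually.of_forall fun i k => by
      rw [Real.norm_of_nonneg measureReal_nonneg]
      exact ENNReal.toReal_mono (measure_ne_top _ _) (hm i (f k)))
  rw [(hasSum_real ν hf hd).tsum_eq] at h1
  refine h1.congr fun i => ?_
  exact (hasSum_real (m i) hf hd).tsum_eq

/-- Bounded sequences converge along an ultrafilter. -/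
theorem exists_lim (𝒰 : Ultrafilter ℕ) {a : ℕ → ℝ} {M : ℝ} (h0 : ∀ i, 0 ≤ a i)
    (hM : ∀ i, a i ≤ M) : ∃ l : ℝ, 0 ≤ l ∧ l ≤ M ∧ Tendsto a 𝒰 (𝓝 l) := by
  obtain ⟨l, hl, h⟩ := (isCompact_Icc (a := (0 : ℝ)) (b := M)).ultrafilter_le_nhds' (𝒰.map a)
    (by
      rw [Ultrafilter.mem_map]
      exact Filter.Eventually.of_forall (f := (𝒰 : Filter ℕ)) fun i => ⟨h0 i, hM i⟩)
  exact ⟨l, hl.1, hl.2, h⟩

variable (μ : Measure Ω) [IsFiniteMeasure μ]

/-- The limit measure. -/
theorem exists_measure (𝒰 : Ultrafilter ℕ) (T : ℕ → Set Ω) :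
    ∃ ν : Measure Ω, ν ≤ μ ∧ ∀ A, MeasurableSet A →
      Tendsto (fun i => (μ.restrict (T i)).real A) 𝒰 (𝓝 (ν.real A)) := by
  have hle : ∀ (i : ℕ) (A : Set Ω), (μ.restrict (T i)).real A ≤ μ.real A := fun i A =>
    ENNReal.toReal_mono (measure_ne_top _ _) (Measure.restrict_le_self A)
  choose l hl0 hl1 hl using fun A : Set Ω => exists_lim 𝒰
    (a := fun i => (μ.restrict (T i)).real A) (M := μ.real A) (fun i => measureReal_nonneg)
    (fun i => hle i A)
  have hadd : ∀ f : ℕ → Set Ω, (∀ i, MeasurableSet (f i)) →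
      Pairwise (Function.onFun Disjoint f) → HasSum (fun k => l (f k)) (l (⋃ k, f k)) := by
    intro f hf hd
    have hs : Summable fun k => l (f k) :=
      Summable.of_nonneg_of_le (fun k => hl0 _) (fun k => hl1 _) (hasSum_real μ hf hd).summable
    have h1 := tendsto_tsum_of_dominated_convergence (𝓕 := (𝒰 : Filter ℕ))
      (f := fun i k => (μ.restrict (T i)).real (f k)) (hasSum_real μ hf hd).summable
      (fun k => hl (f k))
      (Eventually.of_forall fun i k => by
        rw [Real.norm_of_nonneg measureReal_nonneg]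
        exact hle i (f k))
    have h2 : Tendsto (fun i => (μ.restrict (T i)).real (⋃ k, f k)) 𝒰 (𝓝 (∑' k, l (f k))) :=
      h1.congr fun i => (hasSum_real (μ.restrict (T i)) hf hd).tsum_eq
    rw [tendsto_nhds_unique (hl (⋃ k, f k)) h2]
    exact hs.hasSum
  refine ⟨Measure.ofMeasurable (fun A _ => ENNReal.ofReal (l A)) ?_ ?_, ?_, ?_⟩
  · have h := hl1 ∅
    simp only [measureReal_empty] at h
    exact ENNReal.ofReal_of_nonpos h
  · intro f hf hd
    rw [← (hadd f hf hd).tsum_eq,
      ENNReal.ofReal_tsum_of_nonneg (fun k => hl0 _) (hadd f hf hd).summable]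
  · rw [Measure.le_iff]
    intro A hA
    rw [Measure.ofMeasurable_apply _ hA]
    exact ENNReal.ofReal_le_of_le_toReal (hl1 A)
  · intro A hA
    rw [measureReal_def, Measure.ofMeasurable_apply _ hA, ENNReal.toReal_ofReal (hl0 A)]
    exact hl A

/-- Convergence of the squares of the measures. -/
theorem tendsto_prod {𝒰 : Filter ℕ} {T : ℕ → Set Ω} {ν : Measure Ω}
    [IsFiniteMeasure ν]
    (h : ∀ A, MeasurableSet A → Tendsto (fun i => (μ.restrict (T i)).real A) 𝒰 (𝓝 (ν.real A)))
    (E : Set (Ω × Ω)) (hE : MeasurableSet E) :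
    Tendsto (fun i => ((μ.restrict (T i)).prod (μ.restrict (T i))).real E) 𝒰
      (𝓝 ((ν.prod ν).real E)) := by
  have hm : ∀ i, (μ.restrict (T i)).prod (μ.restrict (T i)) ≤ μ.prod μ := fun i =>
    Measure.prod_mono Measure.restrict_le_self Measure.restrict_le_self
  have huniv : Tendsto (fun i => ((μ.restrict (T i)).prod (μ.restrict (T i))).real univ) 𝒰
      (𝓝 ((ν.prod ν).real univ)) := by
    rw [← univ_prod_univ]
    simp only [measureReal_prod_prod]
    exact (h univ .univ).mul (h univ .univ)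
  induction E, hE using MeasurableSpace.induction_on_inter generateFrom_prod.symm
    isPiSystem_prod with
  | empty => simpa using tendsto_const_nhds
  | basic t ht =>
    obtain ⟨A, hA, B, hB, rfl⟩ := ht
    simp only [measureReal_prod_prod]
    exact (h A hA).mul (h B hB)
  | compl t ht ih =>
    simp only [measureReal_compl ht]
    exact huniv.sub ih
  | iUnion f hd hf ih => exact tendsto_iUnion hm hf hd ih

/-- **Exact cliques.**  If there are sets `T ⊆ S` of measure at least `c` with arbitrarily small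
integral of `U ≥ 0` over `T × T`, then there is one for which `U` vanishes a.e. on `T × T`. -/
theorem exists_clique {U : Ω → Ω → ℝ} (hU : Measurable fun e : Ω × Ω => U e.1 e.2)
    (h0 : ∀ x y, 0 ≤ U x y) (h1 : ∀ x y, U x y ≤ 1) {S : Set Ω} (hS : MeasurableSet S) {c : ℝ}
    (h : ∀ η : ℝ, 0 < η → ∃ T ⊆ S, MeasurableSet T ∧ c ≤ μ.real T ∧
      ∫ e in T ×ˢ T, U e.1 e.2 ∂(μ.prod μ) ≤ η) :
    ∃ T ⊆ S, MeasurableSet T ∧ c ≤ μ.real T ∧
      ∀ᵐ e ∂(μ.prod μ), e.1 ∈ T → e.2 ∈ T → U e.1 e.2 = 0 := by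
  have hpos : ∀ i : ℕ, (0 : ℝ) < 1 / ((i : ℝ) + 1) := fun i => by positivity
  choose T hTS hTm hTc hTU using fun i : ℕ => h (1 / ((i : ℝ) + 1)) (hpos i)
  obtain ⟨ν, hνμ, hν⟩ := exists_measure μ (hyperfilter ℕ) T
  have : IsFiniteMeasure ν := isFiniteMeasure_of_le μ hνμ
  have hlim : Tendsto (fun i : ℕ => 1 / ((i : ℝ) + 1)) (hyperfilter ℕ) (𝓝 0) :=
    (tendsto_one_div_add_atTop_nhds_zero_nat).mono_left
      (by rw [← Nat.cofinite_eq_atTop]; exact hyperfilter_le_cofinite)
  have hac : ν ≪ μ := Measure.absolutelyContinuous_of_le hνμ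
  have hdens : μ.withDensity (ν.rnDeriv μ) = ν := Measure.withDensity_rnDeriv_eq ν μ hac
  have hgm : Measurable (ν.rnDeriv μ) := Measure.measurable_rnDeriv ν μ
  have hzero : ∀ A : Set Ω, ν A = 0 ↔ μ ({x | ν.rnDeriv μ x ≠ 0} ∩ A) = 0 := by
    intro A
    conv_lhs => rw [← hdens]
    exact withDensity_apply_eq_zero hgm
  set P : Set Ω := {x | ν.rnDeriv μ x ≠ 0} with hP
  have hPm : MeasurableSet P := hgm (measurableSet_singleton 0).compl
  refine ⟨P ∩ S, inter_subset_right, hPm.inter hS, ?_, ?_⟩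
  · have h2 : ν Pᶜ = 0 := by rw [hzero]; simp
    have h3 : ν Sᶜ = 0 := by
      have h4 : Tendsto (fun i => (μ.restrict (T i)).real Sᶜ) (hyperfilter ℕ) (𝓝 (ν.real Sᶜ)) :=
        hν _ hS.compl
      have h5 : ∀ i, (μ.restrict (T i)).real Sᶜ = 0 := fun i => by
        rw [measureReal_restrict_apply hS.compl]
        have : Sᶜ ∩ T i = ∅ := by
          ext x; simp only [mem_inter_iff, mem_compl_iff, mem_empty_iff_false, iff_false]
          exact fun hx => hx.1 (hTS i hx.2)
        rw [this, measureReal_empty]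
      simp only [h5] at h4
      have h6 : ν.real Sᶜ = 0 := tendsto_nhds_unique h4 tendsto_const_nhds
      exact (measureReal_eq_zero_iff (measure_ne_top _ _)).1 h6
    have h4 : ν (P ∩ S)ᶜ = 0 := by
      rw [compl_inter]
      exact measure_union_null h2 h3
    have h5 : ν.real univ = ν.real (P ∩ S) := by
      have := measureReal_compl (μ := ν) (hPm.inter hS).compl
      rw [compl_compl, measureReal_def ν (P ∩ S)ᶜ, h4] at this
      simpa using this.symm
    have h6 : c ≤ ν.real univ := by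
      refine ge_of_tendsto (hν univ .univ) (Eventually.of_forall fun i => ?_)
      rw [measureReal_restrict_apply .univ, univ_inter]
      exact hTc i
    calc c ≤ ν.real univ := h6
      _ = ν.real (P ∩ S) := h5
      _ ≤ μ.real (P ∩ S) := ENNReal.toReal_mono (measure_ne_top _ _) (hνμ _)
  · have hI : ∀ i : ℕ, Integrable (fun e : Ω × Ω => U e.1 e.2)
        ((μ.prod μ).restrict (T i ×ˢ T i)) := fun i =>
      Integrable.of_bound hU.aestronglyMeasurable 1 (Eventually.of_forall fun e => by
        rw [Real.norm_of_nonneg (h0 _ _)]; exact h1 _ _)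
    have hE : ∀ n : ℕ, (ν.prod ν) {e : Ω × Ω | 1 / ((n : ℝ) + 1) ≤ U e.1 e.2} = 0 := by
      intro n
      set E : Set (Ω × Ω) := {e : Ω × Ω | 1 / ((n : ℝ) + 1) ≤ U e.1 e.2} with hEdef
      have hEm : MeasurableSet E := measurableSet_le measurable_const hU
      have h2 := tendsto_prod μ hν E hEm
      have h3 : ∀ i : ℕ, ((μ.restrict (T i)).prod (μ.restrict (T i))).real E
          ≤ ((n : ℝ) + 1) * (1 / ((i : ℝ) + 1)) := by
        intro i
        rw [Measure.prod_restrict]
        have h4 := mul_meas_ge_le_integral_of_nonneg (μ := (μ.prod μ).restrict (T i ×ˢ T i))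
          (Eventually.of_forall fun e : Ω × Ω => h0 e.1 e.2) (hI i) (1 / ((n : ℝ) + 1))
        have h5 := h4.trans (hTU i)
        have hn : (0 : ℝ) < (n : ℝ) + 1 := by positivity
        have h6 : (n + 1 : ℝ) * (1 / ((n : ℝ) + 1) *
            ((μ.prod μ).restrict (T i ×ˢ T i)).real E) ≤ (n + 1 : ℝ) * (1 / ((i : ℝ) + 1)) :=
          mul_le_mul_of_nonneg_left h5 hn.le
        calc ((μ.prod μ).restrict (T i ×ˢ T i)).real E
            = (n + 1 : ℝ) * (1 / ((n : ℝ) + 1) *
              ((μ.prod μ).restrict (T i ×ˢ T i)).real E) := by field_simp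
          _ ≤ _ := h6
      have h4 : (ν.prod ν).real E ≤ ((n : ℝ) + 1) * 0 :=
        le_of_tendsto_of_tendsto h2 (hlim.const_mul _) (Eventually.of_forall h3)
      rw [mul_zero] at h4
      exact (measureReal_eq_zero_iff (measure_ne_top _ _)).1 (le_antisymm h4 measureReal_nonneg)
    have hE0 : (ν.prod ν) {e : Ω × Ω | U e.1 e.2 ≠ 0} = 0 := by
      have hEU := measure_iUnion_null hE
      refine measure_mono_null ?_ hEU
      intro e he
      have h2 : 0 < U e.1 e.2 := lt_of_le_of_ne (h0 _ _) (Ne.symm he)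
      obtain ⟨n, hn⟩ := exists_nat_one_div_lt h2
      exact Set.mem_iUnion.2 ⟨n, hn.le⟩
    have hacP : μ.restrict (P ∩ S) ≪ ν := by
      refine Measure.AbsolutelyContinuous.mk fun A hA hA0 => ?_
      rw [Measure.restrict_apply hA]
      rw [hzero] at hA0
      refine measure_mono_null ?_ hA0
      intro x hx
      exact ⟨hx.2.1, hx.1⟩
    have h2 := (hacP.prod hacP) hE0
    rw [Measure.prod_restrict] at h2
    have hPP : MeasurableSet ((P ∩ S) ×ˢ (P ∩ S)) := (hPm.inter hS).prod (hPm.inter hS)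
    have h3 : ∀ᵐ e ∂((μ.prod μ).restrict ((P ∩ S) ×ˢ (P ∩ S))), U e.1 e.2 = 0 := h2
    rw [ae_restrict_iff' hPP] at h3
    filter_upwards [h3] with e he h4 h5
    exact he ⟨h4, h5⟩

/-- **Cover by cliques.**  If every set `S` contains a clique of measure at least `c |S|`, then there
is a sequence of disjoint cliques, of which the first `N` cover all but a set of measure
`(1 - c)^N`. -/
theorem exists_cover {Q : Set Ω → Prop} {c : ℝ}
    (h : ∀ S : Set Ω, MeasurableSet S → ∃ T ⊆ S, MeasurableSet T ∧ c * μ.real S ≤ μ.real T ∧ Q T)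
    (hc : c ≤ 1) :
    ∃ T : ℕ → Set Ω, (∀ n, MeasurableSet (T n)) ∧ Pairwise (Function.onFun Disjoint T) ∧
      (∀ n, Q (T n)) ∧
      ∀ N : ℕ, μ.real (⋃ i ∈ Finset.range N, T i)ᶜ ≤ (1 - c) ^ N * μ.real univ := by
  choose! F hFS hFm hFc hFQ using h
  -- the remainders
  let R : ℕ → Set Ω := fun n => Nat.rec univ (fun _ S => S \ F S) n
  have hR0 : R 0 = univ := rfl
  have hRs : ∀ n, R (n + 1) = R n \ F (R n) := fun n => rfl
  have hRm : ∀ n, MeasurableSet (R n) := by
    intro n
    induction n with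
    | zero => exact .univ
    | succ n ih => rw [hRs]; exact ih.diff (hFm _ ih)
  have hanti : ∀ m n, m ≤ n → R n ⊆ R m := by
    intro m n hmn
    induction n, hmn using Nat.le_induction with
    | base => exact subset_rfl
    | succ n _ ih => rw [hRs]; exact Set.sdiff_subset.trans ih
  have hdisj : ∀ m n, m < n → Disjoint (F (R m)) (F (R n)) := by
    intro m n hmn
    have h1 : F (R n) ⊆ R (m + 1) := (hFS _ (hRm n)).trans (hanti _ _ hmn)
    rw [hRs] at h1
    exact (disjoint_sdiff_left.mono_left h1).symm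
  refine ⟨fun n => F (R n), fun n => hFm _ (hRm n), ?_, fun n => hFQ _ (hRm n), ?_⟩
  · intro m n hmn
    rcases lt_or_gt_of_ne hmn with h1 | h1
    · exact hdisj m n h1
    · exact (hdisj n m h1).symm
  · have hcov : ∀ N : ℕ, (⋃ i ∈ Finset.range N, F (R i))ᶜ = R N := by
      intro N
      induction N with
      | zero => simp [hR0]
      | succ N ih =>
        rw [Finset.range_add_one, Finset.set_biUnion_insert, compl_union, ih, hRs]
        ext x
        simp only [mem_inter_iff, mem_compl_iff, Set.mem_sdiff]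
        tauto
    intro N
    rw [hcov]
    induction N with
    | zero => simp [hR0]
    | succ N ih =>
      rw [hRs, measureReal_sdiff (hFS _ (hRm N)) (hFm _ (hRm N))]
      have h1 := hFc _ (hRm N)
      have h2 : (0 : ℝ) ≤ 1 - c := by linarith
      calc μ.real (R N) - μ.real (F (R N)) ≤ (1 - c) * μ.real (R N) := by linarith
        _ ≤ (1 - c) * ((1 - c) ^ N * μ.real univ) := mul_le_mul_of_nonneg_left ih h2
        _ = _ := by ring

end

end Pool.Agent.Helper42.GL
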